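import Pool.Agent.MP_ee8c61_ag.N3B1.All

/-! Restriction of a model over the base to the open set where a section generates. -/

namespace Pool.Agent.MP_ee8c61_ag.N3.B1

open Pool.Agent.MP_ee8c61_ag.M3

open H59 M3E Finset
open M3L (aw away le_aw inv_mem_aw mem_aw aw_val et_aw)
open N3B1 (sub)

set_option linter.unusedSectionVars false

noncomputable section

variable {N : ℕ}

/-- `W` is a projective log resolution of `F` over the valuation rings with property `P`. -/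
structure OKr (W : Mod N) (P : Vl N → Prop) (F : KK N) : Prop where
  r : W.S.r = x0 N
  et : ∀ b, (W.S.zh b).toRingHom.Etale
  bas : ∀ b g, (∀ V, P V → g ∈ V) → g ∈ W.S.A b
  ord : ∀ b, ∃ U : (KK N)ˣ, W.S.IsU b U ∧ F = U * W.mon b W.aa
  det : ∀ b, ∃ U : (KK N)ˣ, W.S.IsU b U ∧
    (Matrix.of fun l i => W.S.D b i (W.S.r l)).det = U * W.mon b W.kk
  pos : ∀ j, 0 < W.a j
  cov : ∀ V, P V → ∃ b, W.In b V
  dv : ∀ b j, (W.η b j)⁻¹ ∉ W.S.A b → W.In b (W.v j).O ∧ (W.v j).v (W.η b j) = 1 ∧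
    ∀ g ∈ W.S.A b, g ∈ (W.v j).F 1 → g * (W.η b j)⁻¹ ∈ W.S.A b
  ne : ∀ j, ∃ b, (W.η b j)⁻¹ ∉ W.S.A b
  inj : ∀ j j', (W.v j).O = (W.v j').O → j = j'
  amp : ∃ (w : W.J → ℤ) (κ : Type) (_ : Fintype κ) (b : κ → W.ι) (t ρ : κ → KK N),
    (∀ i, t i ∈ W.S.A (b i)) ∧ (∀ i, t i ≠ 0) ∧ (∀ i V, P V → W.Oc V w (ρ i)) ∧
    (∀ V, P V → ∃ i, W.Gen V w (ρ i)) ∧
    ∀ i V, P V → (W.Gen V w (ρ i) ↔ W.In (b i) V ∧ (t i)⁻¹ ∈ V)

theorem OKr.ok [Base] {W : Mod N} {f : Po N} (h : OKr W Ov (ip N f)) (hf : Gd f) : W.OK f :=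
  ⟨h.r, h.et, fun b p => h.bas b _ fun _ hV => hV p, h.ord, h.det, h.pos, h.cov, h.dv, h.ne, h.inj,
    let ⟨w, κ, i, b, t, ρ, h1, h2, h3, h4, h5⟩ := h.amp; ⟨w, κ, i, b, t, ρ, h1, h2, h3, h4, h5⟩, hf⟩

/-- The restricted model. -/
def res (M : Mod N) (c : M.J → ℤ) (u : KK N) (hc : ∀ b, u * M.mon b c ∈ M.S.A b) (u0 : u ≠ 0)
    (F : KK N) : Mod N where
  ι := M.ι
  J := {j // (M.v j).v u = -c j}
  fι := M.fι
  fJ := inferInstance
  dJ := inferInstance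
  S := sub (away M.S id (fun b => u * M.mon b c) hc fun b => mul_ne_zero u0 (M.mon_ne b c)) _
  a j := ((M.v j).v F).toNat
  k j := M.k j
  v j := M.v j

section

variable [Base] {h : Po N} {M : Mod N} {c : M.J → ℤ} {u : KK N} {hc : ∀ b, u * M.mon b c ∈ M.S.A b}
  {u0 : u ≠ 0} {F : KK N} {V : Vl N} {b : M.ι}

theorem res_A (b : M.ι) : (res M c u hc u0 F).S.A b = aw (M.S.A b) (u * M.mon b c) := rfl

theorem res_η (b : M.ι) (j : (res M c u hc u0 F).J) : (res M c u hc u0 F).η b j = M.η b j.1 := rfl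

theorem res_mon (b : M.ι) (d : M.J → ℤ) : (res M c u hc u0 F).mon b (fun j => d j.1) =
    M.mon b fun j => if (M.v j).v u = -c j then d j else 0 := by
  rw [Mod.mon_eq, Mod.mon_eq]
  refine ((prod_subtype (univ.filter fun j => (M.v j).v u = -c j) (by simp)
    fun j => M.η b j ^ d j).symm.trans (prod_filter _ _)).trans (prod_congr rfl fun j _ => ?_)
  split_ifs <;> simp

theorem in_iff (B : Bas h M) : (res M c u hc u0 F).In b V ↔ M.In b V ∧ M.Gen V c u := by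
  have t0 := mul_ne_zero u0 (M.mon_ne b c)
  refine (aw_val (hc b) t0 V).trans (and_congr_right fun hb => ?_)
  rw [B.gen_iff b V c u hb]
  exact ⟨fun k => ⟨t0, hb _ (hc b), k⟩, fun k => k.2.2⟩

theorem thru (B : Bas h M) (hc : ∀ b, u * M.mon b c ∈ M.S.A b) (hb : M.In b V)
    (hV : M.Gen V c u) {j : M.J} (hj : M.Thru V j) : (M.v j).v u = -c j := by
  obtain ⟨h1, -, -, h2⟩ := B.in_v b V j hb hj
  exact ((B.gen_v j c u).1 ((B.gen_iff b _ c u h1).2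
    ((M.v j).un_O.2 ⟨(hV b hb).1, h2 _ (hc b) (hV b hb)⟩))).2

theorem gen_iff (B : Bas h M) (hV : M.Gen V c u) (d : M.J → ℤ) (g : KK N) :
    (res M c u hc u0 F).Gen V (fun j => d j.1) g ↔ M.Gen V d g := by
  refine ⟨fun k b hb => ?_, fun k b hb => ?_⟩
  · have := k b ((in_iff B).2 ⟨hb, hV⟩)
    rw [res_mon, ← B.gen_iff b V _ _ hb] at this
    exact B.gen_congr V _ _ _ (fun j hj => if_pos (thru B hc hb hV hj)) this b hb
  · have hb' := ((in_iff B).1 hb).1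
    rw [res_mon]
    exact B.gen_congr V _ _ _ (fun j hj => (if_pos (thru B hc hb' hV hj)).symm) k b hb'

theorem oc_of (B : Bas h M) {d : M.J → ℤ} {g : KK N} (k : M.Oc V d g) :
    (res M c u hc u0 F).Oc V (fun j => d j.1) g := fun b hb => by
  obtain ⟨hb', hV⟩ := (in_iff B).1 hb
  rw [res_mon]
  exact B.oc_mono V _ _ _ (fun j hj => (if_pos (thru B hc hb' hV hj)).ge) k b hb'

theorem nm (B : Bas h M) (nb : Nb M) {g : KK N}
    (k : ∀ V, M.In b V → M.Gen V c u → g ∈ V) : g ∈ (res M c u hc u0 F).S.A b :=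
  have t0 := mul_ne_zero u0 (M.mon_ne b c)
  (mem_aw (hc b) t0).2 (nb.aw b _ (hc b) t0 g fun V h1 h2 =>
    k V h1 ((B.gen_iff b V c u h1).2 ⟨t0, h1 _ (hc b), h2⟩))

theorem unit (B : Bas h M) (nb : Nb M) {d : M.J → ℤ} {g : KK N} (g0 : g ≠ 0)
    (k : ∀ V, M.In b V → M.Gen V (-d) g) : ∃ U : (KK N)ˣ, (res M c u hc u0 F).S.IsU b U ∧
      g = U * (res M c u hc u0 F).mon b fun j => d j.1 := by
  have e : (res M c u hc u0 F).mon b (fun j => (-d) j.1) =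
      ((res M c u hc u0 F).mon b fun j => d j.1)⁻¹ := by
    rw [res_mon, res_mon, ← B.mon_neg]
    exact congrArg _ (funext fun j => by by_cases a : (M.v j).v u = -c j <;> simp [a])
  have w : ∀ V, M.In b V → M.Gen V c u →
      Un V (g * ((res M c u hc u0 F).mon b fun j => d j.1)⁻¹) :=
    fun V h1 h2 => e ▸ (gen_iff B h2 _ _).2 (k V h1) b ((in_iff B).2 ⟨h1, h2⟩)
  have m := (res M c u hc u0 F).mon_ne b fun j => d j.1
  refine ⟨Units.mk0 _ (mul_ne_zero g0 (inv_ne_zero m)), ⟨nm B nb fun V h1 h2 => (w V h1 h2).2.1,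
    nm B nb fun V h1 h2 => ?_⟩, (inv_mul_cancel_right₀ m g).symm⟩
  rw [Units.val_inv_eq_inv_val]
  exact (w V h1 h2).2.2

theorem okr (hM : M.OK h) (B : Bas h M) (nb : Nb M) (F0 : F ≠ 0)
    (hF : ∀ V, M.Gen V (fun j => -(M.v j).v F) F)
    (hp : ∀ j, (M.v j).v u = -c j → 0 < (M.v j).v F) :
    OKr (res M c u hc u0 F) (fun V => Ov V ∧ M.Gen V c u) F where
  r := hM.r
  et b := et_aw _ (M.S.z_mem b) (hc b) (mul_ne_zero u0 (M.mon_ne b c)) (hM.et b)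
  bas b g k := nm B nb fun V h1 h2 => k V ⟨B.ov b V h1, h2⟩
  ord b := by
    have e : (res M c u hc u0 F).aa = fun j => (M.v j.1).v F :=
      funext fun j => Int.toNat_of_nonneg (hp _ j.2).le
    rw [e]
    exact unit (d := fun j => (M.v j).v F) B nb F0 fun V _ => hF V
  det b := by
    obtain ⟨U, hU, e⟩ := hM.det b
    refine unit (d := M.kk) B nb (e ▸ mul_ne_zero U.ne_zero (M.mon_ne _ _)) fun V hb => ?_
    rw [B.gen_iff b V _ _ hb, B.mon_neg]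
    refine (congrArg (Un V) ((congrArg (· * _) e).trans
      (mul_inv_cancel_right₀ (M.mon_ne _ _) _))).mpr ⟨U.ne_zero, hb _ hU.1, ?_⟩
    rw [← Units.val_inv_eq_inv_val]
    exact hb _ hU.2
  pos j := Int.lt_toNat.2 (hp _ j.2)
  cov V hV := (hM.cov V hV.1).imp fun _ hb => (in_iff B).2 ⟨hb, hV.2⟩
  dv b j k := by
    have t0 := mul_ne_zero u0 (M.mon_ne b c)
    obtain ⟨h1, h2, h3⟩ := hM.dv b j.1 fun a => k (le_aw a)
    refine ⟨(in_iff B).2 ⟨h1, (B.gen_v _ _ _).2 ⟨u0, j.2⟩⟩, h2, fun g hg hv => ?_⟩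
    obtain ⟨e, he⟩ := (mem_aw (hc b) t0).1 hg
    refine (mem_aw (hc b) t0).2 ⟨e, ?_⟩
    rw [← mul_assoc]
    exact h3 _ he (by simpa using (M.v j.1).F_mul (h1 _ (pow_mem (hc b) e)) hv)
  ne j := by
    obtain ⟨b, hb⟩ := hM.ne j.1
    obtain ⟨h1, h2, -⟩ := hM.dv b j.1 hb
    refine ⟨b, fun k => ?_⟩
    have h3 : (M.η b j.1)⁻¹ ∈ (M.v j.1).F 0 :=
      (in_iff (hc := hc) (u0 := u0) (F := F) B).2 ⟨h1, (B.gen_v _ _ _).2 ⟨u0, j.2⟩⟩ _ k
    have h4 := h3.resolve_left (inv_ne_zero (M.η_ne _ _))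
    rw [DV.inv, h2] at h4
    omega
  inj j j' e := Subtype.ext (hM.inj _ _ e)
  amp := by
    obtain ⟨w, κ, _, b, t, ρ, hA⟩ := hM.amp
    refine ⟨fun j => w j.1, κ, inferInstance, b, t, ρ, fun i => le_aw (hA.mem i), hA.ne,
      fun i V hV => oc_of B (hA.sec i V hV.1),
      fun V hV => (hA.cov V hV.1).imp fun i k => (gen_iff B hV.2 _ _).2 k, fun i V hV => ?_⟩
    rw [gen_iff B hV.2, hA.gen i V hV.1, in_iff B, and_iff_left hV.2]

/-- The case of the function `h` itself. -/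
theorem okr_self (hM : M.OK h) (B : Bas h M) (nb : Nb M) :
    OKr (res M c u hc u0 (ip N h)) (fun V => Ov V ∧ M.Gen V c u) (ip N h) ∧
      ∀ j, (res M c u hc u0 (ip N h)).a j = M.a j.1 := by
  have e : ∀ j, (M.v j).v (ip N h) = M.a j := fun j =>
    ((B.gen_v j _ _).1 (B.gen_f _)).2.trans (neg_neg _)
  refine ⟨okr hM B nb (fun k => hM.gd.1 (Subtype.ext k))
    (fun V => B.gen_congr V _ _ _ (fun j _ => by rw [e]; rfl) (B.gen_f V)) fun j _ => ?_,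
    fun j => ?_⟩
  · rw [e]
    exact_mod_cast hM.pos j
  · exact (congrArg Int.toNat (e j.1)).trans (Int.toNat_natCast _)

end

/-- The restriction is a model over the smaller base. -/
theorem ok_res (β β' : Base) {h : @Po β N} {f : @Po β' N} {M : Mod N} {c : M.J → ℤ} {u : KK N}
    {hc : ∀ b, u * M.mon b c ∈ M.S.A b} {u0 : u ≠ 0} (hM : @Mod.OK β N M h) (B : @Bas β N h M)
    (nb : @Nb β N M) (e : f.1 = h.1) (hf : @Gd β' N f)
    (hO : ∀ V, @Ov β' N V ↔ @Ov β N V ∧ M.Gen V c u) : @Mod.OK β' N (res M c u hc u0 h.1) f := by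
  have k := (@okr_self N β h M c u hc u0 hM B nb).1
  rw [← funext fun V => propext (hO V)] at k
  exact @OKr.ok N β' _ f ((congrArg (OKr _ _) e).mpr k) hf

end

end Pool.Agent.MP_ee8c61_ag.N3.B1
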