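import Pool.Agent.MP_ee8c61_ag.N3B1.Rel
import Pool.Agent.MP_ee8c61_ag.N3E.Spec

/-! Projective log resolutions over the base exist. -/

namespace Pool.Agent.MP_ee8c61_ag.N3.B1

open Pool.Agent.MP_ee8c61_ag.M3

variable [Base]

/-- The same data as a model over the base. -/
def cv {N : ℕ} (W : M3.Mod N) : Mod N := ⟨W.ι, W.J, W.fι, W.fJ, W.dJ, W.S, W.a, W.k, W.v⟩

theorem ok_of {N : ℕ} {W : M3.Mod N} {f : Po N} (h : N3B1.OKr W Ov (ip N f)) (hf : Gd f) :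
    (cv W).OK f :=
  ⟨h.r, h.et, fun b p => h.bas b _ fun _ hV => hV p, h.ord, h.det, h.pos, h.cov, h.dv, h.ne, h.inj,
    let ⟨w, κ, i, b, t, ρ, h1, h2, h3, h4, h5⟩ := h.amp; ⟨w, κ, i, b, t, ρ, h1, h2, h3, h4, h5⟩, hf⟩

/-- The output of the block. -/
def SB1 : Prop := ∀ (N : ℕ) (f : Po N) (G : Finset (Po N)), Gd f → (∃ r, f ^ r ∈ G) →
  ∃ M : Mod N, M.OK f ∧ ∃ c, ∀ T : Finset (KK N), (T : Set (KK N)) = ip N '' G → M.Gens c T

theorem sb1 : SB1 := by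
  classical
  intro N f G hf ⟨r, hr⟩
  obtain ⟨f0, q, hq, hx, n, p, e⟩ := id hf
  obtain ⟨W, hW, c, h1, h2⟩ := N3B1.rel (xx N) Ov (fun V => ⟨fun h => ⟨h.pol, (ov_iff.1 h).2⟩,
    fun h => ov_iff.2 ⟨fun c => (M3.ip N).commutes c ▸ h.1 _, h.2⟩⟩) (ip N f) (G.image (ip N)) q hq
    hx (fun k => f0 (Subtype.ext k))
    ⟨n, fun V hV => by
      rw [← map_pow, e, map_mul, ip_pp, mul_div_cancel_right₀ _ (M3B1.ip_ne hq)]
      exact hV p⟩
    (fun g hg V hV => by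
      obtain ⟨g, -, rfl⟩ := Finset.mem_image.1 hg
      exact hV g) (fun V hV => hV f) ⟨r, Finset.mem_image.2 ⟨_, hr, map_pow _ _ _⟩⟩
  refine ⟨cv W, ok_of hW hf, c, fun T hT => ?_⟩
  obtain rfl : T = G.image (ip N) := Finset.coe_injective (hT.trans Finset.coe_image.symm)
  exact ⟨h1, h2⟩

theorem sb1raw : M3E.SB1raw := fun N f G hf hG => by
  classical
  obtain ⟨M, hM, c, h⟩ := sb1 N f G hf hG
  exact ⟨M, hM, c, G.image (ip N), Finset.coe_image, h _ Finset.coe_image⟩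

end Pool.Agent.MP_ee8c61_ag.N3.B1
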