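import Pool.Agent.MP_ee8c61_ag.N3B1.Away
import Pool.Agent.MP_ee8c61_ag.M3B1.All
import Pool.Agent.MP_ee8c61_ag.M3E.RB1
import Pool.Agent.MP_ee8c61_ag.M3E.RBas
import Pool.Agent.MP_ee8c61_ag.M3E.RBas1
import Pool.Agent.MP_ee8c61_ag.M3E.RH
import Pool.Agent.MP_ee8c61_ag.M3E.RMono
import Pool.Agent.MP_ee8c61_ag.M3E.RNb
import Pool.Agent.MP_ee8c61_ag.M3E.RNrm

/-! Projective log resolutions over an affine modification of affine space. -/

namespace Pool.Agent.MP_ee8c61_ag.N3B1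

open H59 M3 M3E Finset
open M3L (aw away le_aw inv_mem_aw mem_aw aw_val et_aw nm_of_etale)

variable {N : ℕ}

theorem den {q : Po N} (hq : ip N q ≠ 0) {g : KK N}
    (hg : ∀ V : Vl N, Ov V → (ip N q)⁻¹ ∈ V → g ∈ V) :
    ∃ (n : ℕ) (p : Po N), ip N q ^ n * g = ip N p := by
  have m : ∀ p, ip N p ∈ (ip N).range := fun p => ⟨p, rfl⟩
  have e : (MvPolynomial.aeval fun i => (⟨ip N (MvPolynomial.X i), m _⟩ : (ip N).range) :
      Po N →ₐ[ℂ] (ip N).range) = (ip N).rangeRestrict :=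
    MvPolynomial.algHom_ext fun i => by rw [MvPolynomial.aeval_X]; rfl
  have et := et_aw (fun i => ip N (MvPolynomial.X i)) (fun _ => m _) (m q) hq
    (e ▸ RingHom.Etale.of_bijective ⟨fun a b k => RB1.ip_inj (congrArg Subtype.val k),
      (ip N).rangeRestrict_surjective⟩)
  obtain ⟨n, p, hp⟩ := (mem_aw (m q) hq).1 (nm_of_etale _ _ et (fun x => by
    obtain ⟨p, h0, r, e⟩ := M3L.frac x
    exact ⟨_, le_aw (m p), h0, e ▸ le_aw (m r)⟩) g fun V hV =>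
      hg V (fun p => hV _ (le_aw (m p))) (hV _ inv_mem_aw))
  exact ⟨n, p, hp.symm⟩

theorem rel {κ : Type} [Fintype κ] (x : κ → KK N) (P : Vl N → Prop)
    (hP : ∀ V, P V ↔ Ov V ∧ ∀ l, x l ∈ V) (F : KK N) (G : Finset (KK N)) (q : Po N) (hq : q ≠ 0)
    (hx : ∀ l, ∃ (n : ℕ) (p : Po N), ip N q ^ n * x l = ip N p) (F0 : F ≠ 0)
    (hn : ∃ n : ℕ, ∀ V, P V → F ^ n / ip N q ∈ V) (hG : ∀ g ∈ G, ∀ V, P V → g ∈ V)
    (hF : ∀ V, P V → F ∈ V) (hr : ∃ r : ℕ, F ^ r ∈ G) :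
    ∃ W : Mod N, OKr W P F ∧ ∃ c, (∀ g ∈ G, ∀ V, P V → W.Oc V c g) ∧
      ∀ V, P V → ∃ g ∈ G, W.Gen V c g := by
  classical
  have q0 : ip N q ≠ 0 := M3B1.ip_ne hq
  have dn : ∀ g, (∀ V, P V → g ∈ V) → ∃ (n : ℕ) (p : Po N), ip N q ^ n * g = ip N p :=
    fun g hg => den q0 fun V h1 h2 => hg V ((hP V).2 ⟨h1, fun l => by
      obtain ⟨n, p, e⟩ := hx l
      have := mul_mem (pow_mem h2 n) (h1 p)
      rwa [← e, inv_pow, inv_mul_cancel_left₀ (pow_ne_zero _ q0)] at this⟩)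
  obtain ⟨m, F₀, hm⟩ := dn F hF
  obtain ⟨r, hr⟩ := hr
  obtain ⟨n, hn⟩ := hn
  have eh : ip N (q * F₀) = ip N q ^ (m + 1) * F := by rw [map_mul, ← hm]; ring
  have h0 : q * F₀ ≠ 0 := fun e => mul_ne_zero (pow_ne_zero _ q0) F0 (by rw [← eh, e, map_zero])
  have bas := rowBas rowBas1
  obtain ⟨W, hW, hT⟩ := RB1.many M3B1.sb1raw bas (rowNb rowNrm bas) (rowH bas) (rowMono bas) h0
    Bool (fun i => if i then G.image (ip N q ^ ((m + 1) * r) * ·) else insert 1 (univ.image x))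
    (fun i g hg => by
      obtain ⟨k, p, e⟩ := dn g fun V hV => by
        cases i
        · rcases mem_insert.1 hg with rfl | hg
          · exact one_mem _
          · obtain ⟨l, -, rfl⟩ := mem_image.1 hg
            exact ((hP V).1 hV).2 l
        · obtain ⟨g', hg', rfl⟩ := mem_image.1 hg
          exact mul_mem (pow_mem (((hP V).1 hV).1 q) _) (hG g' hg' V hV)
      exact ⟨k, F₀ ^ k * p, by rw [map_mul, map_mul, map_pow, ← e]; ring⟩)
    fun i => by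
      cases i
      · exact ⟨0, mem_insert.2 (Or.inl (pow_zero _))⟩
      · exact ⟨r, mem_image.2 ⟨_, hr, by rw [eh, mul_pow, ← pow_mul]⟩⟩
  have B := bas N _ W hW
  have nb := rowNb rowNrm bas N _ W hW
  obtain ⟨c, a1, a2⟩ := hT false
  obtain ⟨d, a3, a4⟩ := hT true
  have hc := (nb.H c 1).1 (a1 1 (mem_insert_self _ _))
  have eP : P = fun V => Ov V ∧ W.Gen V c 1 := by
    refine funext fun V => propext ((hP V).trans (and_congr_right fun hV => ⟨fun k b hb => ?_,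
      fun k l => ?_⟩))
    · obtain ⟨g, hg, u⟩ := a2 V hV
      rw [one_mul]
      refine Un.of_mul (mul_comm g _ ▸ u b hb) (one_mul (W.mon b c) ▸ hb _ (hc b)) ?_
      rcases mem_insert.1 hg with rfl | hg
      · exact one_mem _
      · obtain ⟨l, -, rfl⟩ := mem_image.1 hg
        exact k l
    · obtain ⟨b, hb⟩ := hW.cov V hV
      exact (Un.mem_iff (one_mul (W.mon b c) ▸ k b hb)).1
        (a1 _ (mem_insert_of_mem (mem_image_of_mem x (mem_univ l))) V hV b hb)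
  have gq : ∀ V, W.Gen V (fun j => -(W.v j).v (ip N q)) (ip N q) := fun V b hb => by
    obtain ⟨U, hU, e⟩ := hW.ord b
    refine rowMono bas N _ W hW b V _ (ip N F₀ * (U⁻¹ : (KK N)ˣ)) W.aa hb
      (Lc.of_mem (hW.pol b q)) (Lc.of_mem (mul_mem (hW.pol b _) hU.2)) ?_ b hb
    rw [← mul_assoc, ← map_mul, e, mul_right_comm, Units.mul_inv, one_mul]
  have gi := fun V k => B.gen_inv V _ _ (B.gen_pow V _ _ k (gq V))
  have cn : ∀ (k : ℕ) g, ip N q ^ k * g * (ip N q ^ k)⁻¹ = g := fun k g => by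
    rw [mul_right_comm, mul_inv_cancel₀ (pow_ne_zero _ q0), one_mul]
  have gF : ∀ V, W.Gen V (fun j => -(W.v j).v F) F := by
    have k := fun V => B.gen_mul V _ _ _ _ (B.gen_f V) (gi V (m + 1))
    rw [eh, cn] at k
    exact fun V => B.gen_congr V _ _ _ (fun j _ => by
      rw [((B.gen_v j _ _).1 (k _)).2, neg_neg]) (k V)
  refine ⟨res W c 1 hc one_ne_zero F, eP ▸ okr hW B nb F0 gF fun j hj => ?_,
    fun j => (d + -(((m + 1) * r) • fun j => -(W.v j).v (ip N q))) j.1,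
    fun g hg V hV => oc_of B ?_, fun V hV => ?_⟩
  · have hj' : P (W.v j).O := eP ▸ ⟨B.ov_v j, (B.gen_v _ _ _).2 ⟨one_ne_zero, hj⟩⟩
    have b1 := (hF _ hj').resolve_left F0
    have b2 := (hn _ hj').resolve_left (div_ne_zero (pow_ne_zero _ F0) q0)
    have b3 := ((B.gen_v j _ _).1 (B.gen_f _)).2
    have b4 := hW.pos j
    rw [(W.v j).div (pow_ne_zero _ F0) q0, DV.pow] at b2
    rw [eh, (W.v j).mul _ _ (pow_ne_zero _ q0) F0, DV.pow, Pi.neg_apply, neg_neg, Mod.aa] at b3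
    by_contra k
    have b5 : (W.v j).v F = 0 := by omega
    rw [b5] at b2 b3
    have := mul_nonpos_of_nonneg_of_nonpos (Int.natCast_nonneg (m + 1))
      (show (W.v j).v (ip N q) ≤ 0 by omega)
    omega
  · rw [← cn ((m + 1) * r) g]
    exact B.oc_mul V _ _ _ _ (a3 _ (mem_image_of_mem _ hg) V ((hP V).1 hV).1)
      (B.gen_oc V _ _ (gi V _))
  · obtain ⟨_, hg, u⟩ := a4 V ((hP V).1 hV).1
    obtain ⟨g, hg', rfl⟩ := mem_image.1 hg
    exact ⟨g, hg', (gen_iff B ((congrFun eP V).mp hV).2 _ _).2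
      (cn _ g ▸ B.gen_mul V _ _ _ _ u (gi V _))⟩

end Pool.Agent.MP_ee8c61_ag.N3B1
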